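import Pool.Agent.Q28.HP.Main

/-!
# Integers `n` with `n ^ P(π, e)` algebraic, for all polynomials `P` of bounded degree at once

Let `V` be a finite dimensional space of complex numbers over the field of algebraic numbers, with
`1 ∈ V`.  We count the integers `n ≥ 2` for which there is ANY irrational exponent `P ∈ V` for which
`n ^ P` is algebraic: at most `(log₂ N + 1) ^ R` of them are at most `N`, where
`R = d (d - 1) + 1 - e`, `d = dim V` and `e` is the dimension of the space of all elements of `V` which are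
linear forms in `1` and logarithms of algebraic numbers.

In particular at most `(log₂ N + 1) ^ 5` integers `n ≤ N` have an algebraic power with exponent
`a π + b e + c` for some algebraic numbers `a, b, c`, except for rational exponents. Nothing is assumed about the
linear or algebraic independence of `π` and `e`.

The proof uses the hyperplane case of the linear subgroup theorem of Waldschmidt and Roy and Baker's
theorem (starting files).
-/

set_option autoImplicit false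

namespace Pool.Agent.Results.MP_ee2255_nt.CommonExceptionalSet

open Module Finset MvPolynomial

/-- The linear forms in `1` and logarithms of algebraic numbers, with algebraic coefficients. -/
noncomputable def LogForms : Submodule (algebraicClosure ℚ ℂ) ℂ :=
  Submodule.span (algebraicClosure ℚ ℂ) ({1} ∪ {z : ℂ | IsAlgebraic ℚ (Complex.exp z)})

/-- The integers `n ≥ 2` for which `n ^ P` is algebraic for some irrational number `P` in `V`. -/
def Bad (V : Submodule (algebraicClosure ℚ ℂ) ℂ) : Set ℕ :=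
  {n : ℕ | 2 ≤ n ∧ ∃ P ∈ V, (∀ q : ℚ, P ≠ q) ∧ IsAlgebraic ℚ ((n : ℂ) ^ P)}

/-- The polynomial `P` has degree less than `D` in each variable. -/
def DegLT (D : ℕ) (P : MvPolynomial (Fin 2) (algebraicClosure ℚ ℂ)) : Prop :=
  ∀ d ∈ P.support, ∀ l, d l < D

open Pool.Agent.H301R2.SSE (QB mem_QB Lt Lt_alg Lt_log)
open Pool.Agent.Q28.HP

theorem bad_exc (V : Submodule (algebraicClosure ℚ ℂ) ℂ) : Bad V ⊆ Exc V 0 := by
  rintro n ⟨hn, P, hP, hq, halg⟩
  have hne : (n : ℂ) ≠ 0 := by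
    have : n ≠ 0 := by omega
    exact_mod_cast this
  have hexp : (n : ℂ) ^ P = Complex.exp (P * Real.log n) := by
    rw [Complex.cpow_def_of_ne_zero hne, Complex.natCast_log, mul_comm]
  rw [hexp] at halg
  refine ⟨by omega, P, hP, fun h => gs hn h hq halg, 0, 0, ?_⟩
  have h1 : P * ((Real.log n : ℂ) + ((0 : QB) : ℂ) * 0 + ((0 : QB) : ℂ)) = P * Real.log n := by
    have h5 : ((0 : QB) : ℂ) = 0 := rfl
    rw [h5]; ring
  rw [h1]
  exact Lt_log halg

theorem main (V : Submodule (algebraicClosure ℚ ℂ) ℂ) [FiniteDimensional (algebraicClosure ℚ ℂ) V]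
    (h1 : (1 : ℂ) ∈ V) (N : ℕ) :
    {n ∈ Bad V | n ≤ N}.ncard ≤ (Nat.log 2 N + 1) ^
      (finrank (algebraicClosure ℚ ℂ) V * (finrank (algebraicClosure ℚ ℂ) V - 1) + 1 -
        finrank (algebraicClosure ℚ ℂ) (V ⊓ LogForms : Submodule (algebraicClosure ℚ ℂ) ℂ)) := by
  refine le_trans ?_ (exc_count V V h1 le_rfl 0 (fun v _ => by rw [mul_zero]; exact V.zero_mem) N)
  apply Set.ncard_le_ncard
  · rintro n ⟨hn, hnN⟩
    exact ⟨bad_exc V hn, hnN⟩
  · exact (Set.finite_Icc 0 N).subset (fun n hn => ⟨Nat.zero_le _, hn.2⟩)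

theorem main' (V : Submodule (algebraicClosure ℚ ℂ) ℂ) [FiniteDimensional (algebraicClosure ℚ ℂ) V]
    (h1 : (1 : ℂ) ∈ V) (hp : (Real.pi : ℂ) ∈ V) (d : ℕ)
    (hd : finrank (algebraicClosure ℚ ℂ) V ≤ d) (N : ℕ) :
    {n ∈ Bad V | n ≤ N}.ncard ≤ (Nat.log 2 N + 1) ^ (d * (d - 1) - 1) := by
  refine (main V h1 N).trans (Nat.pow_le_pow_right (by omega) ?_)
  have h2 := two_le V h1 hp
  have h3 : finrank (algebraicClosure ℚ ℂ) V * (finrank (algebraicClosure ℚ ℂ) V - 1) ≤ d * (d - 1) :=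
    Nat.mul_le_mul hd (Nat.sub_le_sub_right hd 1)
  have h4 : 2 ≤ finrank (algebraicClosure ℚ ℂ) (V ⊓ LogForms : Submodule (algebraicClosure ℚ ℂ) ℂ) := h2
  omega

theorem result :
    -- (A) all exponents in a finite dimensional space
    (∀ V : Submodule (algebraicClosure ℚ ℂ) ℂ, FiniteDimensional (algebraicClosure ℚ ℂ) V →
      (1 : ℂ) ∈ V → ∀ N : ℕ, {n ∈ Bad V | n ≤ N}.ncard ≤ (Nat.log 2 N + 1) ^
        (finrank (algebraicClosure ℚ ℂ) V * (finrank (algebraicClosure ℚ ℂ) V - 1) + 1 -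
          finrank (algebraicClosure ℚ ℂ) (V ⊓ LogForms : Submodule (algebraicClosure ℚ ℂ) ℂ))) ∧
    -- (B) all exponents `a π + b e + c`
    (∀ N : ℕ, {n : ℕ | 2 ≤ n ∧ n ≤ N ∧ ∃ a b c : ℂ, IsAlgebraic ℚ a ∧ IsAlgebraic ℚ b ∧
      IsAlgebraic ℚ c ∧ (∀ q : ℚ, a * Real.pi + b * Real.exp 1 + c ≠ q) ∧
      IsAlgebraic ℚ ((n : ℂ) ^ (a * Real.pi + b * Real.exp 1 + c))}.ncard ≤ (Nat.log 2 N + 1) ^ 5) ∧
    -- (C) all exponents `P(π, e)`, `P` of degree less than `D` in each variable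
    (∀ D : ℕ, 2 ≤ D → ∀ N : ℕ, {n : ℕ | 2 ≤ n ∧ n ≤ N ∧
      ∃ P : MvPolynomial (Fin 2) (algebraicClosure ℚ ℂ), DegLT D P ∧
        (∀ q : ℚ, aeval ![(Real.pi : ℂ), (Real.exp 1 : ℂ)] P ≠ q) ∧
        IsAlgebraic ℚ ((n : ℂ) ^ (aeval ![(Real.pi : ℂ), (Real.exp 1 : ℂ)] P))}.ncard ≤
          (Nat.log 2 N + 1) ^ (D ^ 2 * (D ^ 2 - 1) - 1)) := by
  classical
  refine ⟨fun V hV h1 N => main V h1 N, fun N => ?_, fun D hD N => ?_⟩
  · let V : Submodule (algebraicClosure ℚ ℂ) ℂ := Submodule.span (algebraicClosure ℚ ℂ)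
      (Set.range ![(1 : ℂ), Real.pi, Real.exp 1])
    have hfd : FiniteDimensional (algebraicClosure ℚ ℂ) V :=
      FiniteDimensional.span_of_finite _ (Set.finite_range _)
    have hd : finrank (algebraicClosure ℚ ℂ) V ≤ 3 := by
      have := finrank_range_le_card (R := algebraicClosure ℚ ℂ) ![(1 : ℂ), Real.pi, Real.exp 1]
      simpa [Set.finrank] using this
    have hm : ∀ i, ![(1 : ℂ), Real.pi, Real.exp 1] i ∈ V := fun i => Submodule.subset_span ⟨i, rfl⟩
    refine le_trans ?_ (main' V (hm 0) (hm 1) 3 hd N)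
    apply Set.ncard_le_ncard
    · rintro n ⟨hn, hnN, a, b, c, ha, hb, hc, hq, halg⟩
      refine ⟨⟨hn, _, ?_, hq, halg⟩, hnN⟩
      have e1 : a * Real.pi + b * Real.exp 1 + c =
          (⟨a, mem_QB.mpr ha⟩ : algebraicClosure ℚ ℂ) • (Real.pi : ℂ) +
          (⟨b, mem_QB.mpr hb⟩ : algebraicClosure ℚ ℂ) • (Real.exp 1 : ℂ) +
          (⟨c, mem_QB.mpr hc⟩ : algebraicClosure ℚ ℂ) • (1 : ℂ) := by
        rw [Algebra.smul_def, Algebra.smul_def, Algebra.smul_def, mul_one]; rfl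
      rw [e1]
      exact V.add_mem (V.add_mem (V.smul_mem _ (hm 1)) (V.smul_mem _ (hm 2))) (V.smul_mem _ (hm 0))
    · exact (Set.finite_Icc 0 N).subset (fun n hn => ⟨Nat.zero_le _, hn.2⟩)
  · let V : Submodule (algebraicClosure ℚ ℂ) ℂ := Submodule.span (algebraicClosure ℚ ℂ)
      (Set.range (fun x : Fin D × Fin D => (Real.pi : ℂ) ^ (x.1 : ℕ) * (Real.exp 1 : ℂ) ^ (x.2 : ℕ)))
    have hfd : FiniteDimensional (algebraicClosure ℚ ℂ) V :=
      FiniteDimensional.span_of_finite _ (Set.finite_range _)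
    have hd : finrank (algebraicClosure ℚ ℂ) V ≤ D ^ 2 := by
      have := finrank_range_le_card (R := algebraicClosure ℚ ℂ)
        (fun x : Fin D × Fin D => (Real.pi : ℂ) ^ (x.1 : ℕ) * (Real.exp 1 : ℂ) ^ (x.2 : ℕ))
      rw [Fintype.card_prod, Fintype.card_fin, ← sq] at this
      exact this
    have hm : ∀ i j : ℕ, i < D → j < D → (Real.pi : ℂ) ^ i * (Real.exp 1 : ℂ) ^ j ∈ V :=
      fun i j hi hj => Submodule.subset_span ⟨(⟨i, hi⟩, ⟨j, hj⟩), rfl⟩
    refine le_trans ?_ (main' V (by simpa using hm 0 0 (by omega) (by omega))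
      (by simpa using hm 1 0 (by omega) (by omega)) (D ^ 2) hd N)
    apply Set.ncard_le_ncard
    · rintro n ⟨hn, hnN, P, hP, hq, halg⟩
      refine ⟨⟨hn, _, ?_, hq, halg⟩, hnN⟩
      rw [aeval_def, eval₂_eq']
      apply V.sum_mem
      intro d hd
      rw [Fin.prod_univ_two]
      have := V.smul_mem (coeff d P) (hm (d 0) (d 1) (hP d hd 0) (hP d hd 1))
      rwa [Algebra.smul_def] at this
    · exact (Set.finite_Icc 0 N).subset (fun n hn => ⟨Nat.zero_le _, hn.2⟩)

end Pool.Agent.Results.MP_ee2255_nt.CommonExceptionalSet
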