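import Mathlib
import Pool.Agent.Q29.OvCount
import Pool.Agent.Q29.OvPow
import Pool.Agent.H340R2.LW

/-!
# Powers of integers with irrational exponents: uniform distribution of the multiples, over arbitrary constants

Is `n ^ π` or `n ^ e` rational for some integer `n ≥ 2`? Let `λ_(j,i)` be real numbers such that for every `j ≤ m` the numbers
`1, λ_(j,1), …, λ_(j,r)` are linearly independent over `ℚ`; for instance `r = 1` and `λ_(j,1) = π` or `e`. Let `ξ_1, …, ξ_g` be
arbitrary real numbers, which may depend on `N` and may be as large as `N ^ H`. For all but `C N ^ (m - 1 + ε)` of the `m`-tuples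
of integers `1 ≤ x_j ≤ N` and all `M` between `N ^ B` and `N ^ E` the following holds: every value `y = P(x_j ^ λ_(j,i))` of a
polynomial of partial degrees at most `d` whose coefficients are polynomials in the `ξ_i` of partial degrees at most `d` with
integer coefficients at most `M ^ κ`, some nonconstant coefficient being at least `N ^ (-H)` in absolute value, has uniformly
distributed multiples at the scale `M`: `n y`, `n < M`, also for `n` in the set of the `k`-th powers or of the prime numbers in a residue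
class, is uniformly distributed modulo one, with an error `M ^ (1 - κ)`.

The constants do not depend on the numbers `ξ_i`. The proof: functions `x ^ λ` at rational points over arbitrary constants
(starting files `Y890.UC`), after a dyadic subdivision; an inverse theorem for the sums of Weyl and a form of the estimate of
Vinogradov for the sums over primes with a power saving (`H373R2/NB`, `W110/HV`).
-/

set_option autoImplicit false

namespace Pool.Agent.Results.MP_ee2255_nt.MultiplesOfPowers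

open Finset Polynomial

/-- The multiples of `x` are uniformly distributed at the scale `M`, with a power saving, along all polynomials of degree
at most `K` and along the primes of all residue classes:

* for every nonzero integer `b` with `|b| ≤ M ^ κ`, every `1 ≤ k ≤ K` and every real polynomial `R` of degree less than
  `k`, the number of `0 ≤ n < M` with the fractional part of `b x n ^ k + R(n)` in `[u, v)` is `(v - u) M` up to
  `M ^ (1 - κ)`, for all `0 ≤ u ≤ v ≤ 1`;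
* for every such `b`, every `1 ≤ d ≤ M ^ κ`, every `r` and every real `β`, the number of primes `p ≤ M` with
  `p ≡ r (mod d)` and the fractional part of `b x p + β` in `[u, v)` is `(v - u)` times the number of all the primes
  `p ≤ M` with `p ≡ r (mod d)`, up to `M ^ (1 - κ)`. -/
def Good (κ : ℝ) (K M : ℕ) (x : ℝ) : Prop :=
  (∀ b : ℤ, b ≠ 0 → |(b : ℝ)| ≤ (M : ℝ) ^ κ → ∀ k : ℕ, 1 ≤ k → k ≤ K → ∀ R : ℝ[X], R.degree < k →
    ∀ u v : ℝ, 0 ≤ u → u ≤ v → v ≤ 1 →
      |(((range M).filter fun n : ℕ => u ≤ Int.fract (b * x * (n : ℝ) ^ k + R.eval (n : ℝ)) ∧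
          Int.fract (b * x * (n : ℝ) ^ k + R.eval (n : ℝ)) < v).card : ℝ) - (v - u) * M| ≤
        (M : ℝ) ^ (1 - κ)) ∧
  (∀ b : ℤ, b ≠ 0 → |(b : ℝ)| ≤ (M : ℝ) ^ κ → ∀ d r : ℕ, 1 ≤ d → (d : ℝ) ≤ (M : ℝ) ^ κ → ∀ β : ℝ,
    ∀ u v : ℝ, 0 ≤ u → u ≤ v → v ≤ 1 →
      |(((range (M + 1)).filter fun p : ℕ => (p.Prime ∧ p ≡ r [MOD d]) ∧
          (u ≤ Int.fract (b * x * p + β) ∧ Int.fract (b * x * p + β) < v)).card : ℝ) -
        (v - u) * ((range (M + 1)).filter fun p : ℕ => p.Prime ∧ p ≡ r [MOD d]).card| ≤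
        (M : ℝ) ^ (1 - κ))

/-- The value at `y` of the polynomial `P` whose coefficients are integer polynomials in the numbers `ξ_1, …, ξ_g`. -/
noncomputable def value {g : ℕ} {τ : Type} (ξ : Fin g → ℝ) (y : τ → ℝ) (P : MvPolynomial τ (MvPolynomial (Fin g) ℤ)) : ℝ :=
  MvPolynomial.eval₂ (MvPolynomial.aeval ξ : MvPolynomial (Fin g) ℤ →ₐ[ℤ] ℝ).toRingHom y P

/-- The polynomials of degree at most `d` in every variable whose coefficients are polynomials in `ξ_1, …, ξ_g` of degree at most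
`d` in every variable with integer coefficients of absolute value at most `R`, with a nonconstant coefficient whose value is at
least `r` in absolute value. -/
def Admissible {g : ℕ} {τ : Type} (ξ : Fin g → ℝ) (d : ℕ) (R r : ℝ) (P : MvPolynomial τ (MvPolynomial (Fin g) ℤ)) : Prop :=
  (∀ j, P.degreeOf j ≤ d) ∧ (∀ e i, (P.coeff e).degreeOf i ≤ d) ∧ (∀ e u, |(((P.coeff e).coeff u : ℤ) : ℝ)| ≤ R) ∧
    ∃ e, e ≠ 0 ∧ r ≤ |MvPolynomial.aeval ξ (P.coeff e)|

/-- The `m`-tuples of integers `1 ≤ x_j ≤ N` for which there are an `M` between `N ^ B` and `N ^ E` and an admissible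
polynomial `P` such that the multiples of its value at the numbers `x_j ^ λ_(j,i)` are not uniformly distributed at the
scale `M`. -/
def Exceptional {m r g : ℕ} (lam : Fin m → Fin r → ℝ) (ξ : Fin g → ℝ) (d K : ℕ) (κ B E H : ℝ) (N : ℕ) :
    Set (Fin m → ℕ) :=
  {x | (∀ j, 1 ≤ x j ∧ x j ≤ N) ∧ ∃ M : ℕ, (N : ℝ) ^ B ≤ (M : ℝ) ∧ (M : ℝ) ≤ (N : ℝ) ^ E ∧
    ∃ P : MvPolynomial (Fin m × Fin r) (MvPolynomial (Fin g) ℤ), Admissible ξ d ((M : ℝ) ^ κ) ((N : ℝ) ^ (-H)) P ∧
      ¬ Good κ K M (value ξ (fun z => (x z.1 : ℝ) ^ lam z.1 z.2) P)}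

/-- The assertion for the exponents `λ_(j,i)`. -/
def FewExceptions {m r : ℕ} (lam : Fin m → Fin r → ℝ) : Prop :=
  ∀ (g d K : ℕ) (H ε : ℝ), 0 ≤ H → 0 < ε → ∃ B : ℝ, 1 ≤ B ∧ ∀ E : ℝ, ∃ κ : ℝ, 0 < κ ∧ ∃ C : ℝ, ∀ N : ℕ, 1 ≤ N →
    ∀ ξ : Fin g → ℝ, (∀ i, |ξ i| ≤ (N : ℝ) ^ H) →
      (Exceptional lam ξ d K κ B E H N).Finite ∧
      ((Exceptional lam ξ d K κ B E H N).ncard : ℝ) ≤ C * (N : ℝ) ^ ((m : ℝ) - 1 + ε)

theorem main (m r : ℕ) (hm : 1 ≤ m) (lam : Fin m → Fin r → ℝ)
    (hlam : ∀ j, ∀ (c : Fin r → ℤ) (k : ℤ), ∑ i, (c i : ℝ) * lam j i = k → c = 0) : FewExceptions lam := by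
  classical
  intro g d K H ε hH hε
  obtain ⟨L, hL⟩ : ∃ L : ℝ, L = ∑ j, ∑ i, |lam j i| := ⟨_, rfl⟩
  have hL0 : 0 ≤ L := by rw [hL]; positivity
  have hLe : ∀ j i, lam j i ≤ L := by
    intro j i
    rw [hL]
    refine (le_abs_self _).trans ?_
    refine (Finset.single_le_sum (f := fun i => |lam j i|) (fun i _ => abs_nonneg _) (mem_univ i)).trans ?_
    exact Finset.single_le_sum (f := fun j => ∑ i, |lam j i|) (fun j _ => Finset.sum_nonneg fun i _ => abs_nonneg _) (mem_univ j)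
  obtain ⟨B, hB, h⟩ := Pool.Agent.Q29.Eqd.badV_count (κ := Fin r) m g d K hm (fun j (x : ℕ) i => (x : ℝ) ^ lam j i)
    (fun j => Pool.Agent.Q29.Eqd.oneVar_pow (lam j) (hlam j)) (H + L) ε (by linarith) hε
    ⟨1, fun N hN j x i hx1 hx2 => by
      have h1 : (1 : ℝ) ≤ x := by exact_mod_cast hx1
      have h2 : (x : ℝ) ≤ N := by exact_mod_cast hx2
      rw [abs_of_nonneg (Real.rpow_nonneg (by linarith) _)]
      calc (x : ℝ) ^ lam j i ≤ (x : ℝ) ^ (H + L) := Real.rpow_le_rpow_of_exponent_le h1 (by linarith [hLe j i])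
        _ ≤ (N : ℝ) ^ (H + L) := Real.rpow_le_rpow (by linarith) h2 (by linarith)⟩
  refine ⟨B, hB, fun E => ?_⟩
  obtain ⟨κ, C, hκ, hC⟩ := h E
  refine ⟨κ, hκ, C, fun N hN ξ hξ => ?_⟩
  have hN1 : (1 : ℝ) ≤ N := by exact_mod_cast hN
  have h1 := hC N hN ξ (fun i => (hξ i).trans (Real.rpow_le_rpow_of_exponent_le hN1 (by linarith)))
  have h2 : Exceptional lam ξ d K κ B E H N ⊆
      Pool.Agent.Q29.Eqd.BadV m g d N K (fun j (x : ℕ) i => (x : ℝ) ^ lam j i) κ B E (H + L) ξ := by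
    rintro x ⟨hx, M, hM1, hM2, P, ⟨hP1, hP2, hP3, e, he0, he⟩, hbad⟩
    exact ⟨hx, M, hM1, hM2, P, hP1, hP2, hP3, ⟨e, he0, (Real.rpow_le_rpow_of_exponent_le hN1 (by linarith)).trans he⟩, hbad⟩
  refine ⟨h1.1.subset h2, le_trans ?_ h1.2⟩
  exact_mod_cast Set.ncard_le_ncard h2 h1.1

theorem single (s : ℝ) (hs : Irrational s) : ∀ (c : Fin 1 → ℤ) (k : ℤ), ∑ i, (c i : ℝ) * (fun _ => s : Fin 1 → ℝ) i = k → c = 0 := by
  intro c k h
  rw [Fin.sum_univ_one] at h
  by_contra hc
  have hc0 : c 0 ≠ 0 := fun h0 => hc (by funext i; rw [Fin.fin_one_eq_zero i, h0]; rfl)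
  apply hs
  refine ⟨(k : ℚ) / c 0, ?_⟩
  have : (c 0 : ℝ) ≠ 0 := by exact_mod_cast hc0
  push_cast
  field_simp
  linarith

/-- The first part: exponents `λ_(j,i)` such that for every `j` the numbers `1, λ_(j,1), …, λ_(j,r)` are linearly independent
over `ℚ`. The second part: the powers `x ^ π` and the powers `x ^ e` of all but `C N ^ ε` of the integers `x ≤ N`. -/
theorem result :
    (∀ (m r : ℕ), 1 ≤ m → ∀ lam : Fin m → Fin r → ℝ,
      (∀ j, ∀ (c : Fin r → ℤ) (k : ℤ), ∑ i, (c i : ℝ) * lam j i = k → c = 0) → FewExceptions lam) ∧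
    FewExceptions (fun _ _ => Real.pi : Fin 1 → Fin 1 → ℝ) ∧
    FewExceptions (fun _ _ => Real.exp 1 : Fin 1 → Fin 1 → ℝ) :=
  ⟨fun m r hm lam hlam => main m r hm lam hlam, main 1 1 le_rfl _ (fun _ => single _ irrational_pi),
    main 1 1 le_rfl _ (fun _ => single _ Pool.Agent.H340R2.LW.transcendental_exp_one.irrational)⟩

end Pool.Agent.Results.MP_ee2255_nt.MultiplesOfPowers
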