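import Pool.Agent.Q23.AQ.EL
import Pool.Agent.Q23.AQ.Few

/-!
# The powers `n^π, n^(π²), …` (or `n^e, n^(e²), …`) of several integers `n`

Let `θ_1, …, θ_k` be positive real numbers such that `1, θ_1, …, θ_k` are linearly independent over `ℚ`, for instance
`π, π², …, π^k` or `e, e², …, e^k`. For all large `N` and every finite set `S` of integers in `[N, 2 N]`, for all but
`C N^ε |S|^(r - 1)` of the `r`-tuples `(n_1, …, n_r)` from `S` the `r k` numbers `n_i ^ θ_j` satisfy no polynomial relation
of bounded degree and of height at most `N^A`, not even approximately (with an error `N^(-B)`), and not even relative to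
arbitrary constants (which may depend on `N`), over all number fields of bounded degree. For `r = 1` and `S` the set of all
integers in `[N, 2 N]`: for all but `C N^ε` of these integers `n` the number `n^π` is not within `N^(-B)` of any rational
number, or of any algebraic number of bounded degree, of height at most `N^A`.
-/

set_option autoImplicit false

open Set Filter Topology NumberField

namespace Pool.Agent.Results.MP_ee2255_nt.PowersOfSeveralIntegers

/-- The `r`-tuples of elements of `S` for which there is a polynomial `P` of degree at most `d` in each variable, with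
coefficients of the form `∑ ξ_a ι(c_a)`, where the `c_a` are integers of `F` all of whose conjugates have absolute value
at most `N ^ A`, such that the value of `P` at the numbers `n_i ^ θ_j` is at most `N ^ (-B)` times the absolute value of
some nonzero coefficient of `P`. -/
def Exceptional {k : ℕ} (θ : Fin k → ℝ) (r d : ℕ) {g : ℕ} (F : Type) [Field F] [NumberField F] (ι : F →+* ℂ)
    (ξ : Fin g → ℂ) (N : ℕ) (S : Finset ℕ) (A B : ℝ) : Set (Fin r → ℕ) :=
  {q | (∀ h, q h ∈ S) ∧ ∃ P : MvPolynomial (Fin r × Fin k) ℂ, (∀ x, P.degreeOf x ≤ d) ∧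
    (∀ s, ∃ c : Fin g → 𝓞 F, (∀ a (φ : F →+* ℂ), ‖φ (c a)‖ ≤ (N : ℝ) ^ A) ∧ P.coeff s = ∑ a, ξ a * ι (c a)) ∧
    ∃ s₀, P.coeff s₀ ≠ 0 ∧ ‖MvPolynomial.aeval (fun x : Fin r × Fin k => (((q x.1 : ℝ) ^ θ x.2 : ℝ) : ℂ)) P‖ ≤
      (N : ℝ) ^ (-B) * ‖P.coeff s₀‖}

theorem lin {k : ℕ} (θ : Fin k → ℝ) (hθ : LinearIndependent ℚ (Fin.cons 1 θ : Fin (k + 1) → ℝ)) (μ : Fin k → ℤ)
    (r : ℤ) (h : ∑ j, (μ j : ℝ) * θ j = r) : μ = 0 := by
  have h1 := (Fintype.linearIndependent_iff.1 hθ) (Fin.cons (-(r : ℚ)) fun j => (μ j : ℚ)) (by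
    rw [Fin.sum_univ_succ]
    simp only [Fin.cons_zero, Fin.cons_succ, Rat.smul_def]
    push_cast
    rw [h]
    ring)
  funext j
  have h2 := h1 j.succ
  rw [Fin.cons_succ] at h2
  exact_mod_cast h2

/-- The powers `n_i ^ θ_j` of the integers from a set `S ⊆ [N, 2 N]`. -/
theorem result : ∀ {k : ℕ} (θ : Fin k → ℝ), LinearIndependent ℚ (Fin.cons 1 θ : Fin (k + 1) → ℝ) → (∀ j, 0 < θ j) →
    ∀ (m r g d : ℕ) (A ε : ℝ), 0 ≤ A → 0 < ε → ∃ (B C : ℝ) (N₀ : ℕ), ∀ (F : Type) [Field F] [NumberField F],
      Module.finrank ℚ F ≤ m → ∀ (ι : F →+* ℂ) (N : ℕ), N₀ ≤ N → ∀ (ξ : Fin g → ℂ) (S : Finset ℕ),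
        (∀ n ∈ S, N ≤ n ∧ n ≤ 2 * N) →
        ((Exceptional θ r d F ι ξ N S A B).ncard : ℝ) ≤ C * (N : ℝ) ^ ε * (S.card : ℝ) ^ (r - 1) := by
  classical
  intro k θ hθ hpos m r g d A ε hA hε
  -- the number of coefficients
  let Z : Type := Fin r × Fin k → Fin (d + 1)
  let e : Fin g × Z ≃ Fin (Fintype.card (Fin g × Z)) := Fintype.equivFin _
  have hind : ∀ d : ℕ, Pool.Agent.TH818.AP.RIndep (fun (e : Fin k → Fin (d + 1)) (t : ℝ) =>
      ∏ j, (Real.exp (θ j * Real.log t)) ^ (e j : ℕ)) 1 2 := by
    intro d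
    have h := Q23.AQ.el_ind (κ := Fin k) (σ := Unit) (d := d) (fun _ => (0, 0, 1)) (fun _ _ _ => rfl)
      (fun _ => le_rfl) (fun j _ => θ j) (fun μ r h => by
        refine lin θ hθ μ r ?_
        have h1 := h () (by simp)
        simpa using h1) 1 2 one_pos one_lt_two
    have hs : ∀ t : ℝ, Q23.AQ.sc (0, 0, 1) t = Real.log t := by
      intro t
      simp [Q23.AQ.sc]
    simp only [Finset.univ_unique, Finset.sum_singleton, hs] at h
    exact h
  obtain ⟨B, C, T₀, H⟩ := Q23.AQ.fewR (fun (j : Fin k) t => Real.exp (θ j * Real.log t)) 1 2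
    (fun j t ht => (analyticAt_const.mul (analyticAt_log (lt_of_lt_of_le one_pos ht.1))).rexp) hind m r
    (Fintype.card (Fin g × Z)) d A ε hε
  refine ⟨2 * |B|, |C| * 2 ^ ε, max 2 (Nat.ceil T₀), fun F _ _ hF ι N hN ξ S hS => ?_⟩
  have hN2 : 2 ≤ N := (le_max_left _ _).trans hN
  have hN2' : (2 : ℝ) ≤ N := by exact_mod_cast hN2
  have hN0 : (0 : ℝ) < N := by linarith
  have hNF : (N : F) ≠ 0 := by
    have : N ≠ 0 := by omega
    exact_mod_cast this
  have hT : T₀ ≤ (2 * N : ℝ) := by
    have h1 : T₀ ≤ Nat.ceil T₀ := Nat.le_ceil _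
    have h2 : (Nat.ceil T₀ : ℝ) ≤ N := by exact_mod_cast (le_max_right _ _).trans hN
    linarith
  let pt : ℕ → F := fun n => (n : F) / (N : F)
  have hptinj : Function.Injective pt := by
    intro a b h
    have h1 : (a : F) = b := by
      have h2 : (a : F) / N = b / N := h
      field_simp at h2
      exact h2
    exact_mod_cast h1
  have hpt : ∀ n : ℕ, ι (pt n) = (((n : ℝ) / N : ℝ) : ℂ) := by
    intro n
    simp only [pt, map_div₀, map_natCast]
    push_cast
    rfl
  let ξ' : Fin (Fintype.card (Fin g × Z)) → ℂ := fun l =>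
    ξ (e.symm l).1 * ((∏ x, ((N : ℝ) ^ θ x.2) ^ ((e.symm l).2 x : ℕ) : ℝ) : ℂ)
  have h1 := H F hF ι ξ' (2 * N) hT (S.image pt) (by
    intro x hx
    obtain ⟨n, hn, rfl⟩ := Finset.mem_image.1 hx
    obtain ⟨h2, h3⟩ := hS n hn
    have h2' : (N : ℝ) ≤ n := by exact_mod_cast h2
    have h3' : (n : ℝ) ≤ 2 * N := by exact_mod_cast h3
    refine ⟨⟨(n : ℝ) / N, ?_, ?_, hpt n⟩, (n : 𝓞 F), (N : 𝓞 F), ?_, fun φ => ⟨?_, ?_⟩, ?_⟩
    · rw [le_div_iff₀ hN0]; linarith
    · rw [div_le_iff₀ hN0]; linarith
    · have : N ≠ 0 := by omega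
      exact_mod_cast this
    · simp only [map_natCast, Complex.norm_natCast]
      exact h3'
    · simp only [map_natCast, Complex.norm_natCast]
      linarith
    · simp only [pt, map_natCast])
  rw [Finset.card_image_of_injective _ hptinj] at h1
  refine le_trans ?_ (h1.trans ?_)
  · -- inject the exceptional tuples
    rw [Nat.cast_le]
    refine Set.ncard_le_ncard_of_injOn (fun q h => pt (q h)) ?_ ?_ ?_
    · rintro q ⟨hq, P, hPd, hPc, s₀, hs₀, hP⟩
      refine ⟨fun h => Finset.mem_image_of_mem _ (hq h), ?_⟩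
      -- the scaled polynomial
      let w : (Fin r × Fin k →₀ ℕ) → ℝ := fun s => ∏ x, ((N : ℝ) ^ θ x.2) ^ s x
      have hw1 : ∀ s, 1 ≤ w s := fun s => by
        exact Finset.prod_induction _ (fun y : ℝ => 1 ≤ y) (fun a b ha hb => one_le_mul_of_one_le_of_one_le ha hb)
          le_rfl (fun x _ => one_le_pow₀ (Real.one_le_rpow (by linarith) (hpos _).le))
      let Q : MvPolynomial (Fin r × Fin k) ℂ := ∑ s ∈ P.support, MvPolynomial.monomial s (P.coeff s * (w s : ℂ))
      have hQc : ∀ s, Q.coeff s = P.coeff s * (w s : ℂ) := by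
        intro s
        simp only [Q, MvPolynomial.coeff_sum, MvPolynomial.coeff_monomial]
        rw [Finset.sum_ite_eq' P.support s]
        by_cases hs : s ∈ P.support
        · rw [if_pos hs]
        · rw [if_neg hs, MvPolynomial.notMem_support_iff.1 hs, zero_mul]
      have hQsup : Q.support ⊆ P.support := by
        intro s hs
        rw [MvPolynomial.mem_support_iff, hQc] at hs
        exact MvPolynomial.mem_support_iff.2 (left_ne_zero_of_mul hs)
      refine ⟨Q, ?_, ?_, s₀, ?_, ?_⟩
      · intro x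
        rw [MvPolynomial.degreeOf_le_iff]
        intro s hs
        exact (MvPolynomial.monomial_le_degreeOf x (hQsup hs)).trans (hPd x)
      · intro s
        obtain ⟨c, hc1, hc2⟩ := hPc s
        by_cases hs : s ∈ P.support
        · obtain ⟨z, hz⟩ := Y124.exists_sV' P hPd s hs
          refine ⟨fun l => if (e.symm l).2 = z then c (e.symm l).1 else 0, ?_, ?_⟩
          · intro l φ
            by_cases hl : (e.symm l).2 = z
            · simp only [hl, if_true]
              refine (hc1 _ φ).trans (Real.rpow_le_rpow hN0.le (by linarith) hA)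
            · simp only [hl, if_false]
              simp only [map_zero, norm_zero]
              positivity
          · rw [hQc, hc2, ← e.sum_comp]
            simp only [ξ', Equiv.symm_apply_apply]
            rw [Fintype.sum_prod_type, Finset.sum_mul]
            refine Finset.sum_congr rfl fun a _ => ?_
            rw [Finset.sum_eq_single z]
            · simp only [if_true]
              have hws : w s = ∏ x, ((N : ℝ) ^ θ x.2) ^ (z x : ℕ) := by
                rw [← hz]
                rfl
              rw [hws]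
              ring
            · intro z' _ hz'
              simp only [hz', if_false, map_zero, mul_zero]
            · intro h
              exact absurd (Finset.mem_univ _) h
        · refine ⟨fun _ => 0, ?_, ?_⟩
          · intro l φ
            simp only [map_zero, norm_zero]
            positivity
          · rw [hQc, MvPolynomial.notMem_support_iff.1 hs, zero_mul]
            simp
      · rw [hQc]
        exact mul_ne_zero hs₀ (by exact_mod_cast (lt_of_lt_of_le one_pos (hw1 s₀)).ne')
      · -- the value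
        have hval : MvPolynomial.aeval (fun x : Fin r × Fin k =>
            ((Real.exp (θ x.2 * Real.log (ι (pt (q x.1))).re) : ℝ) : ℂ)) Q =
            MvPolynomial.aeval (fun x : Fin r × Fin k => (((q x.1 : ℝ) ^ θ x.2 : ℝ) : ℂ)) P := by
          rw [MvPolynomial.aeval_def, MvPolynomial.eval₂_eq', MvPolynomial.aeval_def, MvPolynomial.eval₂_eq']
          rw [Finset.sum_subset hQsup (fun s _ hs => by
            rw [MvPolynomial.notMem_support_iff.1 hs, map_zero, zero_mul])]
          refine Finset.sum_congr rfl fun s _ => ?_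
          rw [hQc, map_mul, mul_assoc]
          congr 1
          simp only [w, Algebra.algebraMap_self, RingHom.id_apply]
          push_cast
          rw [← Finset.prod_mul_distrib]
          refine Finset.prod_congr rfl fun x _ => ?_
          rw [← mul_pow]
          congr 1
          have hn := (hS _ (hq x.1)).1
          have hn0 : (0 : ℝ) < q x.1 := by
            have : 0 < q x.1 := by omega
            exact_mod_cast this
          rw [hpt, Complex.ofReal_re, ← Complex.ofReal_mul (θ x.2), ← Complex.ofReal_exp, ← Complex.ofReal_mul]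
          congr 1
          have h5 : Real.exp (θ x.2 * Real.log ((q x.1 : ℝ) / N)) = ((q x.1 : ℝ) / N) ^ θ x.2 := by
            rw [Real.rpow_def_of_pos (div_pos hn0 hN0), mul_comm]
          rw [h5, ← Real.mul_rpow hN0.le (div_nonneg hn0.le hN0.le), mul_div_cancel₀ _ hN0.ne']
        rw [hval]
        refine hP.trans ?_
        rw [hQc, norm_mul]
        have h6 : (1 : ℝ) ≤ ‖((w s₀ : ℝ) : ℂ)‖ := by
          rw [Complex.norm_real, Real.norm_eq_abs]
          exact (hw1 s₀).trans (le_abs_self _)
        have h7 : (N : ℝ) ^ (-(2 * |B|)) ≤ (2 * (N : ℝ)) ^ (-B) := by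
          have h8 : (2 * (N : ℝ)) ^ (-|B|) ≤ (2 * (N : ℝ)) ^ (-B) :=
            Real.rpow_le_rpow_of_exponent_le (by linarith) (by linarith [le_abs_self B])
          refine le_trans ?_ h8
          have h9 : (N : ℝ) ^ (-(2 * |B|)) = ((N : ℝ) ^ (2 : ℝ)) ^ (-|B|) := by
            rw [← Real.rpow_mul hN0.le]
            congr 1
            ring
          rw [h9]
          refine Real.rpow_le_rpow_of_nonpos (by linarith) ?_ (by linarith [abs_nonneg B])
          have h10 : (N : ℝ) ^ (2 : ℝ) = (N : ℝ) ^ 2 := by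
            rw [← Real.rpow_natCast]
            norm_num
          rw [h10]
          nlinarith
        calc (N : ℝ) ^ (-(2 * |B|)) * ‖MvPolynomial.coeff s₀ P‖ ≤ (2 * (N : ℝ)) ^ (-B) * ‖MvPolynomial.coeff s₀ P‖ :=
              mul_le_mul_of_nonneg_right h7 (norm_nonneg _)
          _ ≤ (2 * (N : ℝ)) ^ (-B) * (‖MvPolynomial.coeff s₀ P‖ * ‖((w s₀ : ℝ) : ℂ)‖) := by
              refine mul_le_mul_of_nonneg_left ?_ (Real.rpow_nonneg (by linarith) _)
              exact le_mul_of_one_le_right (norm_nonneg _) h6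
    · intro q _ q' _ h
      funext j
      exact hptinj (congrFun h j)
    · refine (Set.Finite.pi' (fun _ : Fin r => (S.image pt).finite_toSet)).subset ?_
      rintro q ⟨hq, -⟩
      exact hq
  · have h2 : (2 * (N : ℝ)) ^ ε = 2 ^ ε * (N : ℝ) ^ ε := Real.mul_rpow (by norm_num) hN0.le
    rw [h2]
    refine mul_le_mul_of_nonneg_right ?_ (by positivity)
    have h3 : C * (2 ^ ε * (N : ℝ) ^ ε) ≤ |C| * (2 ^ ε * (N : ℝ) ^ ε) :=
      mul_le_mul_of_nonneg_right (le_abs_self C) (by positivity)
    linarith

end Pool.Agent.Results.MP_ee2255_nt.PowersOfSeveralIntegers
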